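import Mathlib
import Pool.Agent.H520R2.NMDefs
import Pool.Agent.H559R9.Tri

/-!
# Triangle detection in graphs with `m` edges needs `m ^ (3 / 2 * (1 - γ) - o(1))` gates in
randomised circuits with `γ * log₂ m` NOT gates

Consider circuits of AND and OR gates of fan-in two and of arbitrary further gates, the `i`-th of
them with `w i` input wires (for example NOT gates, with `w i = 1`), which get a graph with `n`
vertices as input and have to tell whether it has a triangle, but only if it has at most `m` edges.
Let `0 ≤ γ`, `0 < θ`, `2 / 3 * θ + γ < 1`.  There is `α > 0` such that for all large `m` and all `n`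
with `m ≤ n ^ 2`:

* there is a distribution on graphs with `n` vertices and at most `m` edges (uniform on a finite
  family) such that every circuit with `∏ (w i + 1) ≤ m ^ γ` and
  `(number of AND and OR gates) + ∑ w i < m ^ θ` is correct on the random graph with probability
  less than `1 / 2 + m ^ (-α)`;
* for every randomised circuit of this kind (a probability distribution `w` on a finite set `Ω` of
  such circuits) there is a graph with at most `m` edges for which its answer is correct with
  probability less than `1 / 2 + m ^ (-α)`.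

So randomised circuits with `γ * log₂ m` NOT gates need `m ^ (3 / 2 * (1 - γ) - o(1))` gates, which
is superlinear, `m ^ (1 + δ)` with `δ = (1 - 3 * γ) / 2 - o(1)`, for every `γ < 1 / 3`; with
`o(log m)` NOT gates the exponent `3 / 2` of Itai and Rodeh is optimal up to `o(1)` and better than
what fast matrix multiplication achieves.  On `√(2 * m) + 1` vertices, `log₂ m + O(1)` NOT gates are
as good as any number of NOT gates up to a factor `polylog(m)` and `m ^ (1 + o(1))` additional
gates.

Proof. Take a Ruzsa-Szemerédi (Behrend) type system of `m / q ^ 2 / m ^ o(1)` blocks on `√m / q`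
points such that every triangle of the union is in a block, and blow up every point to `q`
vertices.  In one block there are `q ^ 3` potential triangles, and an average-case version of
Razborov's approximation method shows that monotone circuits with `q ^ (3 - o(1))` gates cannot tell
a random triangle from a random bipartite graph.  Random restrictions to one block (the hard
distribution of `Pool.Agent.H560R2`) eliminate the non-monotone gates.
-/

namespace Pool.Agent.Results.MP_ad5e8e_lc.RandomizedNotGates

open Filter Finset Pool.Agent.H520R2.NM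

open Classical in
theorem result (γ θ : ℝ) (hγ : 0 ≤ γ) (hθ : 0 < θ) (h : 2 / 3 * θ + γ < 1) :
    ∃ α : ℝ, 0 < α ∧ ∀ᶠ m : ℕ in atTop, ∀ n : ℕ, m ≤ n ^ 2 →
      (∃ (Λ : Type) (_ : Fintype Λ) (_ : Nonempty Λ) (x : Λ → Sym2 (Fin n) → Bool),
        (∀ l, (univ.filter (fun e => x l e = true)).card ≤ m) ∧
        ∀ (N : ℕ) (C : Circuit (Sym2 (Fin n)) N) (out : Wire (Sym2 (Fin n)) N),
          (((C.fanins.map (· + 1)).prod : ℕ) : ℝ) ≤ (m : ℝ) ^ γ →
          ((C.size + C.fanins.sum : ℕ) : ℝ) < (m : ℝ) ^ θ →
          ((univ.filter (fun l => (out.eval (x l) (C.vals (x l)) = true ↔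
            ¬ (SimpleGraph.fromEdgeSet {e | x l e = true}).CliqueFree 3))).card : ℝ) <
            (1 / 2 + (m : ℝ) ^ (-α)) * Fintype.card Λ) ∧
      ∀ (Ω : Type) [Fintype Ω] (w : Ω → ℝ), (∀ r, 0 ≤ w r) → ∑ r, w r = 1 →
        ∀ (N : Ω → ℕ) (C : ∀ r, Circuit (Sym2 (Fin n)) (N r))
          (out : ∀ r, Wire (Sym2 (Fin n)) (N r)),
          (∀ r, ((((C r).fanins.map (· + 1)).prod : ℕ) : ℝ) ≤ (m : ℝ) ^ γ) →
          (∀ r, (((C r).size + (C r).fanins.sum : ℕ) : ℝ) < (m : ℝ) ^ θ) →
          ∃ x : Sym2 (Fin n) → Bool, (univ.filter (fun e => x e = true)).card ≤ m ∧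
            ∑ r ∈ univ.filter (fun r => ((out r).eval x ((C r).vals x) = true ↔
              ¬ (SimpleGraph.fromEdgeSet {e | x e = true}).CliqueFree 3)), w r <
              1 / 2 + (m : ℝ) ^ (-α) :=
  Pool.Agent.H559R9.tri_sparse γ θ hγ hθ h

end Pool.Agent.Results.MP_ad5e8e_lc.RandomizedNotGates
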