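import Pool.Agent.Results.MP_678664_lc.LPGapLowerBound

set_option autoImplicit false

open Finset

namespace Pool.Agent.Results.MP_ad5e8e_lc.TriangleLPGap

open Pool.Agent.Results.MP_678664_lc.LPGapLowerBound

/-- A linear programming formulation, of size `s` (number of inequalities) and with gap `ε`, of
triangle detection on graphs with vertex set `{0, ..., n-1}` and at most `m` edges.  It consists of
one polyhedron (the same for all graphs), of a feasible point for every triple `K` of vertices, and
of an affine objective function for every graph `G` with at most `m` edges, such that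

* at the point of a triple `K` the objective function of `G` is the number of edges of `G`
  inside `K` (so the optimum is at least `3` if `G` contains a triangle);
* if `G` is bipartite (in particular triangle-free), then the objective function of `G` is at
  most `3 - ε` on the whole polyhedron.

The number `d` of variables and the number `t` of equations are not counted. -/
structure TriangleLP (n m s : ℕ) (ε : ℝ) where
  /-- number of variables -/
  d : ℕ
  /-- number of equations -/
  t : ℕ
  A : Fin s → Fin d → ℝ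
  b : Fin s → ℝ
  A' : Fin t → Fin d → ℝ
  b' : Fin t → ℝ
  /-- the feasible point of a triple of vertices -/
  point : Finset (Fin n) → Fin d → ℝ
  /-- linear part of the objective function of a graph -/
  obj : SimpleGraph (Fin n) → Fin d → ℝ
  /-- constant part of the objective function of a graph -/
  cst : SimpleGraph (Fin n) → ℝ
  feasible : ∀ K : Finset (Fin n), K.card = 3 → point K ∈ polyhedron A b A' b'
  value : ∀ (G : SimpleGraph (Fin n)) (K : Finset (Fin n)), G.edgeSet.ncard ≤ m → K.card = 3 →
    ∑ j, obj G j * point K j + cst G = edgesIn G K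
  sound : ∀ G : SimpleGraph (Fin n), G.edgeSet.ncard ≤ m → G.Colorable 2 →
    ∀ x ∈ polyhedron A b A' b', ∑ j, obj G j * x j + cst G ≤ 3 - ε

/-- the graph on the first `n'` vertices -/
theorem edges_map_le {n' n m : ℕ} (h : n' ≤ n) (hm : n' * n' ≤ 2 * m)
    (G : SimpleGraph (Fin n')) : (G.map (Fin.castLEEmb h)).edgeSet.ncard ≤ m := by
  classical
  rw [SimpleGraph.edgeSet_map]
  refine (Set.ncard_image_le (Set.toFinite _)).trans ?_
  rw [← SimpleGraph.coe_edgeFinset, Set.ncard_coe_finset]
  have h1 := G.card_edgeFinset_le_card_choose_two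
  rw [Fintype.card_fin] at h1
  refine h1.trans ?_
  rw [Nat.choose_two_right]
  have h2 : n' * (n' - 1) ≤ n' * n' := Nat.mul_le_mul_left _ (Nat.sub_le _ _)
  omega

theorem map_colorable {n' n : ℕ} (h : n' ≤ n) (G : SimpleGraph (Fin n')) (hG : G.Colorable 2) :
    (G.map (Fin.castLEEmb h)).Colorable 2 := by
  classical
  obtain ⟨C⟩ := hG
  refine ⟨SimpleGraph.Coloring.mk (fun v => if hv : v.val < n' then C ⟨v.val, hv⟩ else 0) ?_⟩
  intro a b hab
  rw [SimpleGraph.map_adj] at hab
  obtain ⟨u, v, huv, rfl, rfl⟩ := hab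
  have h1 : ((Fin.castLEEmb h) u).val < n' := u.2
  have h2 : ((Fin.castLEEmb h) v).val < n' := v.2
  rw [dif_pos h1, dif_pos h2]
  exact C.valid huv

theorem edgesIn_map {n' n : ℕ} (h : n' ≤ n) (G : SimpleGraph (Fin n')) (K : Finset (Fin n')) :
    edgesIn (G.map (Fin.castLEEmb h)) (K.map (Fin.castLEEmb h)) = edgesIn G K := by
  classical
  unfold edgesIn
  rw [Finset.sum_map]
  congr 1
  refine Finset.sum_congr rfl fun a _ => ?_
  rw [Finset.sum_map]
  refine Finset.sum_congr rfl fun b _ => ?_
  have : (G.map (Fin.castLEEmb h)).Adj (Fin.castLEEmb h a) (Fin.castLEEmb h b) ↔ G.Adj a b :=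
    SimpleGraph.map_adj_apply
  by_cases hab : G.Adj a b
  · rw [if_pos hab, if_pos (this.mpr hab)]
  · rw [if_neg hab, if_neg (fun h' => hab (this.mp h'))]

/-- **LP formulations of triangle detection on graphs with `m` edges need `Ω_ε(m^(3/2))`
inequalities.** -/
theorem result :
    ∃ c : ℝ, 0 < c ∧ ∀ ε : ℝ, 0 < ε → ε ≤ 1 → ∀ n m s : ℕ, 5 ≤ m → 2 * m ≤ n ^ 2 →
      Nonempty (TriangleLP n m s ε) → c * ε ^ 7 * (m : ℝ) ^ (3 / 2 : ℝ) ≤ s + 1 := by
  obtain ⟨c, hc, hmain⟩ := Pool.Agent.Results.MP_678664_lc.LPGapLowerBound.result 3 (le_refl 3)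
  refine ⟨c, hc, ?_⟩
  intro ε hε hε1 n m s hm hmn ⟨L⟩
  set n' := Nat.sqrt (2 * m) with hn'
  have h1 : n' * n' ≤ 2 * m := Nat.sqrt_le _
  have h2 : 2 * m < (n' + 1) * (n' + 1) := Nat.lt_succ_sqrt _
  have hle : n' ≤ n := by
    by_contra hcon
    push Not at hcon
    have : n * n < n' * n' := Nat.mul_lt_mul'' hcon hcon
    nlinarith
  have h3 : 3 ≤ n' := by
    by_contra hcon
    push Not at hcon
    have : (n' + 1) * (n' + 1) ≤ 9 := by
      have : n' + 1 ≤ 3 := by omega
      calc (n' + 1) * (n' + 1) ≤ 3 * 3 := Nat.mul_le_mul this this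
        _ = 9 := rfl
    omega
  have h4 : m ≤ n' * n' := by
    by_contra hcon
    push Not at hcon
    have : 2 * (n' * n') + 2 ≤ 2 * m := by omega
    have h5 : 2 * (n' * n') + 2 < (n' + 1) * (n' + 1) := by omega
    nlinarith
  have hne : Nonempty (LPFormulation 3 n' s ε) := by
    refine ⟨{
      d := L.d
      t := L.t
      A := L.A
      b := L.b
      A' := L.A'
      b' := L.b'
      point := fun K => L.point (K.map (Fin.castLEEmb hle))
      obj := fun G => L.obj (G.map (Fin.castLEEmb hle))
      cst := fun G => L.cst (G.map (Fin.castLEEmb hle))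
      feasible := ?_
      value := ?_
      sound := ?_ }⟩
    · intro K hK
      exact L.feasible _ (by rw [Finset.card_map]; exact hK)
    · intro G K hK
      rw [L.value _ _ (edges_map_le hle h1 G) (by rw [Finset.card_map]; exact hK)]
      exact edgesIn_map hle G K
    · intro G hG x hx
      have := L.sound _ (edges_map_le hle h1 G) (map_colorable hle G hG) x hx
      have e : ((Nat.choose 3 2 : ℕ) : ℝ) = 3 := by norm_num [Nat.choose]
      rw [e]
      exact this
  have h5 := hmain ε hε hε1 n' s h3 hne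
  have h6 : (m : ℝ) ^ (3 / 2 : ℝ) ≤ (n' : ℝ) ^ 3 := by
    have h7 : (m : ℝ) ≤ (n' : ℝ) ^ (2 : ℝ) := by
      have : (m : ℝ) ≤ (n' : ℝ) * n' := by exact_mod_cast h4
      rw [Real.rpow_two]
      nlinarith
    calc (m : ℝ) ^ (3 / 2 : ℝ) ≤ ((n' : ℝ) ^ (2 : ℝ)) ^ (3 / 2 : ℝ) :=
          Real.rpow_le_rpow (by positivity) h7 (by norm_num)
      _ = (n' : ℝ) ^ (3 : ℝ) := by
          rw [← Real.rpow_mul (by positivity)]
          norm_num
      _ = (n' : ℝ) ^ 3 := by
          rw [← Real.rpow_natCast]
          norm_num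
  calc c * ε ^ 7 * (m : ℝ) ^ (3 / 2 : ℝ) ≤ c * ε ^ 7 * (n' : ℝ) ^ 3 :=
        mul_le_mul_of_nonneg_left h6 (by positivity)
    _ ≤ s + 1 := h5

end Pool.Agent.Results.MP_ad5e8e_lc.TriangleLPGap
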