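import Pool.Agent.H575R2.TriRect
import Pool.Agent.H575R2.Farkas

set_option autoImplicit false

open Finset

namespace Pool.Agent.Results.MP_ad5e8e_lc.TrianglePolytopeXC

/-- The edges of the complete tripartite graph with three parts of size `n` (the parts are
indexed by `Fin 3`): `(c, x, y)` is the edge between vertex `x` of part `c` and vertex `y` of
part `c + 1`.  There are `m = 3 n^2` edges. -/
abbrev Edge (n : ℕ) := Fin 3 × Fin n × Fin n

/-- The incidence vector of the (edge set of the) triangle with vertex `T c` in part `c`. -/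
def triVec {n : ℕ} (T : Fin 3 → Fin n) : Edge n → ℝ :=
  fun e => if e.2.1 = T e.1 ∧ e.2.2 = T (e.1 + 1) then 1 else 0

/-- The triangle polytope of the complete tripartite graph `K_{n,n,n}`: the convex hull of the
incidence vectors of its triangles. -/
def trianglePolytope (n : ℕ) : Set (Edge n → ℝ) :=
  convexHull ℝ (Set.range (triVec (n := n)))

/-- `P` has an extended formulation of size `s`: it is the projection of a polyhedron given by `s`
inequalities (and any number of equations and of additional variables). -/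
def HasExtendedFormulation {ι : Type} [Fintype ι] (P : Set (ι → ℝ)) (s : ℕ) : Prop :=
  ∃ (d t : ℕ) (A : Fin s → ι → ℝ) (B : Fin s → Fin d → ℝ) (b : Fin s → ℝ)
    (A' : Fin t → ι → ℝ) (B' : Fin t → Fin d → ℝ) (b' : Fin t → ℝ),
    ∀ x : ι → ℝ, x ∈ P ↔ ∃ y : Fin d → ℝ,
      (∀ i, ∑ j, A i j * x j + ∑ j, B i j * y j ≤ b i) ∧
      (∀ i, ∑ j, A' i j * x j + ∑ j, B' i j * y j = b' i)

/-- linear functional on the product space -/
noncomputable def lin2 {ι : Type} [Fintype ι] {d : ℕ} (a : ι → ℝ) (b : Fin d → ℝ) :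
    ((ι → ℝ) × (Fin d → ℝ)) →ₗ[ℝ] ℝ :=
  (∑ j, a j • (LinearMap.proj j).comp (LinearMap.fst ℝ (ι → ℝ) (Fin d → ℝ))) +
  (∑ j, b j • (LinearMap.proj j).comp (LinearMap.snd ℝ (ι → ℝ) (Fin d → ℝ)))

theorem lin2_apply {ι : Type} [Fintype ι] {d : ℕ} (a : ι → ℝ) (b : Fin d → ℝ)
    (x : ι → ℝ) (y : Fin d → ℝ) : lin2 a b (x, y) = ∑ j, a j * x j + ∑ j, b j * y j := by
  unfold lin2
  simp [LinearMap.sum_apply]

/-- the cut vector of a 2-colouring -/
def cutVec {n : ℕ} (χ : Fin 3 × Fin n → Bool) : Edge n → ℝ :=
  fun e => if χ (e.1, e.2.1) = χ (e.1 + 1, e.2.2) then 0 else 1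

theorem cut_tri {n : ℕ} (χ : Fin 3 × Fin n → Bool) (T : Fin 3 → Fin n) :
    ∑ e, cutVec χ e * triVec T e =
      ∑ c : Fin 3, if χ (c, T c) = χ (c + 1, T (c + 1)) then (0 : ℝ) else 1 := by
  rw [Fintype.sum_prod_type]
  refine Finset.sum_congr rfl fun c _ => ?_
  rw [Finset.sum_eq_single (T c, T (c + 1))]
  · unfold cutVec triVec
    simp
  · intro p _ hp
    unfold triVec
    rw [if_neg, mul_zero]
    rintro ⟨h1, h2⟩
    exact hp (Prod.ext_iff.mpr ⟨h1, h2⟩)
  · intro h
    exact absurd (mem_univ _) h

theorem cut_cases {n : ℕ} (χ : Fin 3 × Fin n → Bool) (T : Fin 3 → Fin n) :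
    ((∀ c, χ (c, T c) = χ (0, T 0)) ∧ ∑ e, cutVec χ e * triVec T e = 0) ∨
    ((¬ ∀ c, χ (c, T c) = χ (0, T 0)) ∧ ∑ e, cutVec χ e * triVec T e = 2) := by
  rw [cut_tri, Fin.sum_univ_three]
  have e1 : (0 : Fin 3) + 1 = 1 := rfl
  have e2 : (1 : Fin 3) + 1 = 2 := rfl
  have e3 : (2 : Fin 3) + 1 = 0 := rfl
  rw [e1, e2, e3]
  have hall : (∀ c : Fin 3, χ (c, T c) = χ (0, T 0)) ↔
      (χ (1, T 1) = χ (0, T 0) ∧ χ (2, T 2) = χ (0, T 0)) := by
    constructor
    · intro h; exact ⟨h 1, h 2⟩
    · rintro ⟨h1, h2⟩ c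
      fin_cases c
      · rfl
      · exact h1
      · exact h2
  rw [hall]
  cases χ (0, T 0) <;> cases χ (1, T 1) <;> cases χ (2, T 2) <;> norm_num

/-- the cut inequality is valid on the triangle polytope -/
theorem cut_valid {n : ℕ} (χ : Fin 3 × Fin n → Bool) (x : Edge n → ℝ)
    (hx : x ∈ trianglePolytope n) : ∑ e, cutVec χ e * x e ≤ 2 := by
  have hconv : Convex ℝ {x : Edge n → ℝ | ∑ e, cutVec χ e * x e ≤ 2} := by
    intro x hx y hy a b ha hb hab
    simp only [Set.mem_ofPred_eq] at hx hy ⊢
    have e : ∑ e, cutVec χ e * (a • x + b • y) e =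
        a * ∑ e, cutVec χ e * x e + b * ∑ e, cutVec χ e * y e := by
      rw [Finset.mul_sum, Finset.mul_sum, ← Finset.sum_add_distrib]
      refine Finset.sum_congr rfl fun e _ => ?_
      simp only [Pi.add_apply, Pi.smul_apply, smul_eq_mul]
      ring
    rw [e]
    nlinarith
  have hsub : Set.range (triVec (n := n)) ⊆ {x : Edge n → ℝ | ∑ e, cutVec χ e * x e ≤ 2} := by
    rintro _ ⟨T, rfl⟩
    simp only [Set.mem_ofPred_eq]
    rcases cut_cases χ T with ⟨-, h⟩ | ⟨-, h⟩
    · rw [h]; norm_num
    · rw [h]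
  exact convexHull_min hsub hconv hx

theorem exists_bichromatic {n : ℕ} (hn : 0 < n) (χ : Fin 3 × Fin n → Bool)
    (hχ : ∃ v w, χ v ≠ χ w) : ∃ T : Fin 3 → Fin n, ¬ ∀ c, χ (c, T c) = χ (0, T 0) := by
  by_contra hcon
  push Not at hcon
  obtain ⟨⟨c, x⟩, ⟨c', y⟩, hne⟩ := hχ
  apply hne
  have key : ∀ (c c' : Fin 3) (x y : Fin n), c ≠ c' → χ (c, x) = χ (c', y) := by
    intro c c' x y hcc
    have h := hcon (fun i => if i = c then x else y)
    have h1 := h c
    have h2 := h c'
    simp only [if_true] at h1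
    rw [if_neg (Ne.symm hcc)] at h2
    rw [h1, h2]
  by_cases hcc : c = c'
  · subst hcc
    have h1 := key c (c + 1) x ⟨0, hn⟩ (by fin_cases c <;> decide)
    have h2 := key c (c + 1) y ⟨0, hn⟩ (by fin_cases c <;> decide)
    rw [h1, h2]
  · exact key c c' x y hcc

theorem card_mono {n : ℕ} (T : Fin 3 → Fin n) :
    4 * (univ.filter fun χ : Fin 3 × Fin n → Bool => ∀ c, χ (c, T c) = χ (0, T 0)).card =
      2 ^ (3 * n) := by
  classical
  -- count by the two free bits: flip the colours of (1, T 1) and (2, T 2)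
  have htotal : (univ : Finset (Fin 3 × Fin n → Bool)).card = 2 ^ (3 * n) := by
    rw [card_univ, Fintype.card_fun]
    simp
  let M : Bool → Bool → Finset (Fin 3 × Fin n → Bool) := fun p q =>
    univ.filter fun χ => (χ (1, T 1) ^^ χ (0, T 0)) = p ∧ (χ (2, T 2) ^^ χ (0, T 0)) = q
  have hflip : ∀ p q p' q', (M p q).card = (M p' q').card := by
    intro p q p' q'
    refine Finset.card_bij'
      (fun χ _ => fun v => if v = (1, T 1) then (χ v ^^ (p ^^ p')) else
        if v = (2, T 2) then (χ v ^^ (q ^^ q')) else χ v)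
      (fun χ _ => fun v => if v = (1, T 1) then (χ v ^^ (p ^^ p')) else
        if v = (2, T 2) then (χ v ^^ (q ^^ q')) else χ v) ?_ ?_ ?_ ?_
    · intro χ hχ
      simp only [M, mem_filter, mem_univ, true_and] at hχ ⊢
      have n1 : ((0 : Fin 3), T 0) ≠ (1, T 1) := by
        intro h; have h' := (Prod.ext_iff.mp h).1; simp at h'
      have n2 : ((0 : Fin 3), T 0) ≠ (2, T 2) := by
        intro h; have h' := (Prod.ext_iff.mp h).1; simp at h'
      have n3 : ((2 : Fin 3), T 2) ≠ (1, T 1) := by
        intro h; have h' := (Prod.ext_iff.mp h).1; simp at h'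
      rw [if_neg n1, if_neg n2, if_neg n3]
      simp only [if_true]
      rw [← hχ.1, ← hχ.2]
      constructor
      · cases χ (1, T 1) <;> cases χ (0, T 0) <;> cases p' <;> rfl
      · cases χ (2, T 2) <;> cases χ (0, T 0) <;> cases q' <;> rfl
    · intro χ hχ
      simp only [M, mem_filter, mem_univ, true_and] at hχ ⊢
      have n1 : ((0 : Fin 3), T 0) ≠ (1, T 1) := by
        intro h; have h' := (Prod.ext_iff.mp h).1; simp at h'
      have n2 : ((0 : Fin 3), T 0) ≠ (2, T 2) := by
        intro h; have h' := (Prod.ext_iff.mp h).1; simp at h'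
      have n3 : ((2 : Fin 3), T 2) ≠ (1, T 1) := by
        intro h; have h' := (Prod.ext_iff.mp h).1; simp at h'
      rw [if_neg n1, if_neg n2, if_neg n3]
      simp only [if_true]
      rw [← hχ.1, ← hχ.2]
      constructor
      · cases χ (1, T 1) <;> cases χ (0, T 0) <;> cases p <;> rfl
      · cases χ (2, T 2) <;> cases χ (0, T 0) <;> cases q <;> rfl
    · intro χ hχ
      funext v
      simp only
      split_ifs with h1 h2
      · cases χ v <;> cases p <;> cases p' <;> rfl
      · cases χ v <;> cases q <;> cases q' <;> rfl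
      · rfl
    · intro χ hχ
      funext v
      simp only
      split_ifs with h1 h2
      · cases χ v <;> cases p <;> cases p' <;> rfl
      · cases χ v <;> cases q <;> cases q' <;> rfl
      · rfl
  have hpart : (univ : Finset (Fin 3 × Fin n → Bool)).card =
      ∑ r : Bool × Bool, (M r.1 r.2).card := by
    rw [Finset.card_eq_sum_card_fiberwise
      (f := fun χ => ((χ (1, T 1) ^^ χ (0, T 0)), (χ (2, T 2) ^^ χ (0, T 0)))) (t := univ)
      (fun _ _ => mem_coe.mpr (mem_univ _))]
    refine Finset.sum_congr rfl fun r _ => ?_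
    congr 1
    ext χ
    simp only [M, mem_filter, mem_univ, true_and, Prod.ext_iff]
  have hM0 : (univ.filter fun χ : Fin 3 × Fin n → Bool => ∀ c, χ (c, T c) = χ (0, T 0)) =
      M false false := by
    ext χ
    simp only [M, mem_filter, mem_univ, true_and]
    constructor
    · intro h
      rw [h 1, h 2]
      simp
    · rintro ⟨h1, h2⟩ c
      have h1' : χ (1, T 1) = χ (0, T 0) := by
        revert h1; cases χ (1, T 1) <;> cases χ (0, T 0) <;> simp
      have h2' : χ (2, T 2) = χ (0, T 0) := by
        revert h2; cases χ (2, T 2) <;> cases χ (0, T 0) <;> simp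
      fin_cases c
      · rfl
      · exact h1'
      · exact h2'
  rw [hM0, ← htotal, hpart, Fintype.sum_prod_type]
  simp only [Fintype.sum_bool]
  rw [hflip true true false false, hflip true false false false, hflip false true false false]
  ring

/-- lower bound -/
theorem lower (n : ℕ) (hn : 2 ≤ n) (s : ℕ)
    (h : HasExtendedFormulation (trianglePolytope n) s) : n ^ 3 ≤ s := by
  classical
  obtain ⟨d, t, A, B, b, A', B', b', hQ⟩ := h
  -- lift the triangles
  have hlift : ∀ T : Fin 3 → Fin n, ∃ y : Fin d → ℝ,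
      (∀ i, ∑ j, A i j * triVec T j + ∑ j, B i j * y j ≤ b i) ∧
      (∀ i, ∑ j, A' i j * triVec T j + ∑ j, B' i j * y j = b' i) := fun T =>
    (hQ (triVec T)).mp (subset_convexHull ℝ _ ⟨T, rfl⟩)
  choose y hy hy' using hlift
  let ℓ : Fin (s + (t + t)) → (((Edge n → ℝ) × (Fin d → ℝ)) →ₗ[ℝ] ℝ) :=
    Fin.append (fun i => lin2 (A i) (B i))
      (Fin.append (fun i => lin2 (A' i) (B' i)) (fun i => - lin2 (A' i) (B' i)))
  let bb : Fin (s + (t + t)) → ℝ := Fin.append b (Fin.append b' (fun i => - b' i))
  have hiff : ∀ x y, (∀ i, ℓ i (x, y) ≤ bb i) ↔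
      ((∀ i, ∑ j, A i j * x j + ∑ j, B i j * y j ≤ b i) ∧
      (∀ i, ∑ j, A' i j * x j + ∑ j, B' i j * y j = b' i)) := by
    intro x y
    constructor
    · intro h
      refine ⟨fun i => ?_, fun i => ?_⟩
      · have := h (Fin.castAdd _ i)
        simp only [ℓ, bb, Fin.append_left, lin2_apply] at this
        exact this
      · have h1 := h (Fin.natAdd s (Fin.castAdd _ i))
        have h2 := h (Fin.natAdd s (Fin.natAdd t i))
        simp only [ℓ, bb, Fin.append_left, Fin.append_right, lin2_apply, LinearMap.neg_apply] at h1 h2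
        linarith
    · rintro ⟨h1, h2⟩ i
      refine Fin.addCases (fun i => ?_) (fun i => ?_) i
      · simp only [ℓ, bb, Fin.append_left, lin2_apply]
        exact h1 i
      · refine Fin.addCases (fun i => ?_) (fun i => ?_) i
        · simp only [ℓ, bb, Fin.append_left, Fin.append_right, lin2_apply]
          exact (h2 i).le
        · simp only [ℓ, bb, Fin.append_right, lin2_apply, LinearMap.neg_apply]
          rw [h2 i]
  have hn0 : 0 < n := by omega
  let T0 : Fin 3 → Fin n := fun _ => ⟨0, hn0⟩
  -- slack factorisation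
  let sl : Fin s → (Fin 3 → Fin n) → ℝ := fun i T =>
    b i - (∑ j, A i j * triVec T j + ∑ j, B i j * y T j)
  have hsl : ∀ i T, 0 ≤ sl i T := fun i T => by
    have := hy T i
    simp only [sl]
    linarith
  have hfark : ∀ χ : Fin 3 × Fin n → Bool, ∃ (w0 : ℝ) (w : Fin s → ℝ), 0 ≤ w0 ∧ (∀ i, 0 ≤ w i) ∧
      ∀ T : Fin 3 → Fin n,
        2 - ∑ e, cutVec χ e * triVec T e = w0 + ∑ i, w i * sl i T := by
    intro χ
    obtain ⟨w0, w, hw0, hw, hfw⟩ := H575R2.farkas_affine (s + (t + t)) ℓ bb
      (lin2 (cutVec χ) 0) 2 (triVec T0, y T0)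
      ((hiff _ _).mpr ⟨hy T0, hy' T0⟩) (by
        rintro ⟨x, z⟩ hx
        rw [lin2_apply]
        have h1 := cut_valid χ x ((hQ x).mpr ⟨z, (hiff x z).mp hx⟩)
        simpa using h1)
    refine ⟨w0, fun i => w (Fin.castAdd _ i), hw0, fun i => hw _, fun T => ?_⟩
    have h1 := hfw (triVec T, y T)
    have h3 := hy' T
    rw [lin2_apply, Fin.sum_univ_add, Fin.sum_univ_add] at h1
    simp only [ℓ, bb, Fin.append_left, Fin.append_right, lin2_apply, LinearMap.neg_apply, h3,
      sub_self, mul_zero, Finset.sum_const_zero, add_zero, Pi.zero_apply, zero_mul] at h1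
    exact h1
  choose w0 w hw0 hw hfac using hfark
  -- rectangles
  let AA : Fin s → Finset (Fin 3 × Fin n → Bool) := fun i =>
    univ.filter fun χ => (∃ v w, χ v ≠ χ w) ∧ 0 < w χ i
  let BB : Fin s → Finset (Fin 3 → Fin n) := fun i => univ.filter fun T => 0 < sl i T
  have hrect : ∀ i, ∀ χ, 0 < w χ i → ∀ T ∈ BB i, ∀ c : Fin 3, χ (c, T c) = χ (0, T 0) := by
    intro i χ hχ T hT
    have hT' : 0 < sl i T := (mem_filter.mp hT).2
    rcases cut_cases χ T with ⟨h, -⟩ | ⟨-, h⟩
    · exact h
    · exfalso
      have h1 := hfac χ T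
      rw [h, sub_self] at h1
      have h2 : w χ i * sl i T ≤ ∑ i, w χ i * sl i T :=
        Finset.single_le_sum (f := fun i => w χ i * sl i T)
          (fun i _ => mul_nonneg (hw χ i) (hsl i T)) (mem_univ i)
      have h3 := mul_pos hχ hT'
      have h4 := hw0 χ
      linarith
  have hbound : ∀ i, (AA i).card * (BB i).card * 4 ≤ 2 ^ (3 * n) - 8 := by
    intro i
    rcases Finset.eq_empty_or_nonempty (BB i) with he | hne
    · rw [he]; simp
    · -- add the two constant colourings
      let A2 : Finset (Fin 3 × Fin n → Bool) := AA i ∪ {fun _ => true, fun _ => false}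
      have hA2 : A2.card = (AA i).card + 2 := by
        rw [Finset.card_union_of_disjoint]
        · congr 1
          rw [Finset.card_pair]
          intro h
          have := congrFun h (0, ⟨0, hn0⟩)
          simp at this
        · rw [Finset.disjoint_left]
          intro χ hχ hχ'
          obtain ⟨v, w, hvw⟩ := (mem_filter.mp hχ).2.1
          rw [mem_insert, mem_singleton] at hχ'
          rcases hχ' with h | h <;> rw [h] at hvw <;> exact hvw rfl
      have hR := H575R2.tri_rect A2 (BB i) (by
        intro χ hχ T hT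
        rcases mem_union.mp hχ with h | h
        · exact hrect i χ (mem_filter.mp h).2.2 T hT
        · rw [mem_insert, mem_singleton] at h
          rcases h with h | h <;> rw [h] <;> intro c <;> rfl)
      rw [hA2] at hR
      have hBpos : 1 ≤ (BB i).card := Finset.card_pos.mpr hne
      have : 4 * (((AA i).card + 2) * (BB i).card) =
          (AA i).card * (BB i).card * 4 + 8 * (BB i).card := by ring
      omega
  -- counting
  let P : Finset ((Fin 3 × Fin n → Bool) × (Fin 3 → Fin n)) :=
    univ.filter fun p => (∃ v w, p.1 v ≠ p.1 w) ∧ ∀ c, p.1 (c, p.2 c) = p.1 (0, p.2 0)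
  have hPsub : P ⊆ univ.biUnion fun i => (AA i) ×ˢ (BB i) := by
    rintro ⟨χ, T⟩ hp
    obtain ⟨hχ, hmono⟩ := (mem_filter.mp hp).2
    simp only at hχ hmono
    -- w0 χ = 0
    obtain ⟨T', hT'⟩ := exists_bichromatic hn0 χ hχ
    have hw0χ : w0 χ = 0 := by
      rcases cut_cases χ T' with ⟨h, -⟩ | ⟨-, h⟩
      · exact absurd h hT'
      · have h1 := hfac χ T'
        rw [h, sub_self] at h1
        have h2 : 0 ≤ ∑ i, w χ i * sl i T' :=
          Finset.sum_nonneg fun i _ => mul_nonneg (hw χ i) (hsl i T')
        have h4 := hw0 χ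
        linarith
    have h2 : ∑ e, cutVec χ e * triVec T e = 0 := by
      rcases cut_cases χ T with ⟨-, h⟩ | ⟨h, -⟩
      · exact h
      · exact absurd hmono h
    have h3 := hfac χ T
    rw [h2, hw0χ, sub_zero, zero_add] at h3
    have hex : ∃ i ∈ (univ : Finset (Fin s)), 0 < w χ i * sl i T := by
      apply Finset.exists_lt_of_sum_lt
      simp only [Finset.sum_const_zero]
      rw [← h3]
      norm_num
    obtain ⟨i, -, hi⟩ := hex
    rw [mem_biUnion]
    refine ⟨i, mem_univ i, ?_⟩
    rw [mem_product]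
    have hwi : 0 < w χ i := by
      rcases eq_or_lt_of_le (hw χ i) with h | h
      · rw [← h, zero_mul] at hi; exact absurd hi (lt_irrefl _)
      · exact h
    have hsi : 0 < sl i T := by
      rcases eq_or_lt_of_le (hsl i T) with h | h
      · rw [← h, mul_zero] at hi; exact absurd hi (lt_irrefl _)
      · exact h
    exact ⟨mem_filter.mpr ⟨mem_univ _, hχ, hwi⟩, mem_filter.mpr ⟨mem_univ _, hsi⟩⟩
  have hPcard : P.card * 4 = n ^ 3 * (2 ^ (3 * n) - 8) := by
    have h1 : P.card = ∑ T : Fin 3 → Fin n,
        (univ.filter fun χ : Fin 3 × Fin n → Bool =>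
          (∃ v w, χ v ≠ χ w) ∧ ∀ c, χ (c, T c) = χ (0, T 0)).card := by
      rw [Finset.card_eq_sum_card_fiberwise (f := fun p => p.2) (t := univ)
        (fun _ _ => mem_coe.mpr (mem_univ _))]
      refine Finset.sum_congr rfl fun T _ => ?_
      refine Finset.card_bij' (fun p _ => p.1) (fun χ _ => (χ, T)) ?_ ?_ ?_ ?_
      · rintro ⟨χ, T'⟩ hp
        simp only [P, mem_filter, mem_univ, true_and] at hp ⊢
        obtain ⟨⟨h1, h2⟩, h3⟩ := hp
        subst h3
        exact ⟨h1, h2⟩
      · intro χ hχ
        simp only [P, mem_filter, mem_univ, true_and] at hχ ⊢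
        exact ⟨hχ, trivial⟩
      · rintro ⟨χ, T'⟩ hp
        simp only [P, mem_filter, mem_univ, true_and] at hp ⊢
        rw [hp.2]
      · intro χ hχ
        rfl
    have h2 : ∀ T : Fin 3 → Fin n,
        (univ.filter fun χ : Fin 3 × Fin n → Bool =>
          (∃ v w, χ v ≠ χ w) ∧ ∀ c, χ (c, T c) = χ (0, T 0)).card * 4 = 2 ^ (3 * n) - 8 := by
      intro T
      have h3 := card_mono T
      have h4 : (univ.filter fun χ : Fin 3 × Fin n → Bool => ∀ c, χ (c, T c) = χ (0, T 0)) =
          (univ.filter fun χ : Fin 3 × Fin n → Bool =>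
          (∃ v w, χ v ≠ χ w) ∧ ∀ c, χ (c, T c) = χ (0, T 0)) ∪
          {fun _ => true, fun _ => false} := by
        ext χ
        simp only [mem_filter, mem_univ, true_and, mem_union, mem_insert, mem_singleton]
        constructor
        · intro h
          by_cases hc : ∃ v w, χ v ≠ χ w
          · exact Or.inl ⟨hc, h⟩
          · right
            push Not at hc
            have hv := hc (0, ⟨0, hn0⟩)
            cases hval : χ (0, ⟨0, hn0⟩)
            · right
              funext v
              rw [← hv v, hval]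
            · left
              funext v
              rw [← hv v, hval]
        · rintro (h | h | h)
          · exact h.2
          · rw [h]; intro c; rfl
          · rw [h]; intro c; rfl
      have h5 : (univ.filter fun χ : Fin 3 × Fin n → Bool => ∀ c, χ (c, T c) = χ (0, T 0)).card =
          (univ.filter fun χ : Fin 3 × Fin n → Bool =>
          (∃ v w, χ v ≠ χ w) ∧ ∀ c, χ (c, T c) = χ (0, T 0)).card + 2 := by
        rw [h4, Finset.card_union_of_disjoint]
        · congr 1
          rw [Finset.card_pair]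
          intro h
          have := congrFun h (0, ⟨0, hn0⟩)
          simp at this
        · rw [Finset.disjoint_left]
          intro χ hχ hχ'
          obtain ⟨v, w, hvw⟩ := (mem_filter.mp hχ).2.1
          rw [mem_insert, mem_singleton] at hχ'
          rcases hχ' with h | h <;> rw [h] at hvw <;> exact hvw rfl
      omega
    rw [h1, Finset.sum_mul, Finset.sum_congr rfl (fun T _ => h2 T), Finset.sum_const, card_univ,
      Fintype.card_fun, Fintype.card_fin, Fintype.card_fin, smul_eq_mul]
  have hfin : n ^ 3 * (2 ^ (3 * n) - 8) ≤ s * (2 ^ (3 * n) - 8) := by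
    rw [← hPcard]
    calc P.card * 4 ≤ (univ.biUnion fun i => (AA i) ×ˢ (BB i)).card * 4 :=
          Nat.mul_le_mul_right _ (Finset.card_le_card hPsub)
      _ ≤ (∑ i, ((AA i) ×ˢ (BB i)).card) * 4 :=
          Nat.mul_le_mul_right _ Finset.card_biUnion_le
      _ = ∑ i, (AA i).card * (BB i).card * 4 := by
          rw [Finset.sum_mul]
          refine Finset.sum_congr rfl fun i _ => ?_
          rw [card_product]
      _ ≤ ∑ i : Fin s, (2 ^ (3 * n) - 8) := Finset.sum_le_sum fun i _ => hbound i
      _ = s * (2 ^ (3 * n) - 8) := by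
          rw [Finset.sum_const, card_univ, Fintype.card_fin, smul_eq_mul]
  have hpos : 0 < 2 ^ (3 * n) - 8 := by
    have : 2 ^ 6 ≤ 2 ^ (3 * n) := Nat.pow_le_pow_right (by norm_num) (by omega)
    omega
  exact Nat.le_of_mul_le_mul_right hfin hpos

/-- upper bound: the trivial formulation as a convex hull -/
theorem upper (n : ℕ) : HasExtendedFormulation (trianglePolytope n) (n ^ 3) := by
  classical
  have hc : Fintype.card (Fin 3 → Fin n) = n ^ 3 := by simp
  let E : (Fin 3 → Fin n) ≃ Fin (n ^ 3) := Fintype.equivFinOfCardEq hc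
  let E' : Edge n ≃ Fin (Fintype.card (Edge n)) := Fintype.equivFin _
  -- variables y_i, one for every triangle; inequalities - y_i ≤ 0;
  -- equations x_e - sum_i y_i (triVec)_e = 0 and sum_i y_i = 1
  refine ⟨n ^ 3, Fintype.card (Edge n) + 1, fun _ _ => 0, fun i j => if j = i then -1 else 0,
    fun _ => 0,
    Fin.snoc (fun i e => if e = E'.symm i then 1 else 0) (fun _ => 0),
    Fin.snoc (fun i j => - triVec (E.symm j) (E'.symm i)) (fun _ => 1),
    Fin.snoc (fun _ => 0) 1, ?_⟩
  intro x
  have key : x ∈ trianglePolytope n ↔ ∃ y : Fin (n ^ 3) → ℝ, (∀ i, 0 ≤ y i) ∧ ∑ i, y i = 1 ∧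
      ∑ i, y i • triVec (E.symm i) = x := by
    unfold trianglePolytope
    rw [convexHull_range_eq_exists_affineCombination]
    constructor
    · rintro ⟨S, wgt, h0, h1, h2⟩
      rw [Finset.affineCombination_eq_linear_combination S _ _ h1] at h2
      refine ⟨fun i => if E.symm i ∈ S then wgt (E.symm i) else 0, ?_, ?_, ?_⟩
      · intro i
        simp only
        split_ifs with hi
        · exact h0 _ hi
        · exact le_refl _
      · rw [Equiv.sum_comp E.symm (fun T => if T ∈ S then wgt T else 0)]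
        rw [Finset.sum_ite_mem, Finset.univ_inter]
        exact h1
      · rw [Equiv.sum_comp E.symm (fun T => (if T ∈ S then wgt T else 0) • triVec T)]
        simp only [ite_smul, zero_smul]
        rw [Finset.sum_ite_mem, Finset.univ_inter]
        exact h2
    · rintro ⟨y, h0, h1, h2⟩
      have := mem_convexHull_of_exists_fintype (R := ℝ) (s := Set.range (triVec (n := n))) y
        (fun i => triVec (E.symm i)) h0 h1 (fun i => ⟨_, rfl⟩) h2
      rw [convexHull_range_eq_exists_affineCombination] at this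
      exact this
  rw [key]
  constructor
  · rintro ⟨y, h0, h1, h2⟩
    refine ⟨y, ?_, ?_⟩
    · intro i
      simp [h0 i]
    · intro i
      refine Fin.lastCases ?_ (fun i => ?_) i
      · simp [h1]
      · simp only [Fin.snoc_castSucc]
        have := congrFun h2 (E'.symm i)
        simp only [Finset.sum_apply, Pi.smul_apply, smul_eq_mul] at this
        simp only [ite_mul, one_mul, zero_mul, Finset.sum_ite_eq', mem_univ, if_true, neg_mul,
          Finset.sum_neg_distrib]
        rw [← this]
        have e : ∑ i_1, triVec (E.symm i_1) (E'.symm i) * y i_1 =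
            ∑ x, y x * triVec (E.symm x) (E'.symm i) :=
          Finset.sum_congr rfl fun j _ => mul_comm _ _
        rw [e]
        ring
  · rintro ⟨y, h0, h1⟩
    refine ⟨y, ?_, ?_, ?_⟩
    · intro i
      have := h0 i
      simp at this
      exact this
    · have := h1 (Fin.last _)
      simpa using this
    · funext e
      have := h1 (Fin.castSucc (E' e))
      simp only [Fin.snoc_castSucc] at this
      simp only [Finset.sum_apply, Pi.smul_apply, smul_eq_mul]
      simp only [Equiv.symm_apply_apply, ite_mul, one_mul, zero_mul, Finset.sum_ite_eq', mem_univ,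
        if_true, neg_mul, Finset.sum_neg_distrib] at this
      have e2 : ∑ i_1, triVec (E.symm i_1) e * y i_1 =
            ∑ x, y x * triVec (E.symm x) e :=
          Finset.sum_congr rfl fun j _ => mul_comm _ _
      rw [e2] at this
      linarith

/-- **The extension complexity of the triangle polytope of `K_{n,n,n}` is exactly `n^3`.** -/
theorem result (n : ℕ) (hn : 2 ≤ n) :
    IsLeast {s : ℕ | HasExtendedFormulation (trianglePolytope n) s} (n ^ 3) :=
  ⟨upper n, fun s hs => lower n hn s hs⟩

end Pool.Agent.Results.MP_ad5e8e_lc.TrianglePolytopeXC
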